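import Pool.Agent.H42.SH.Final

set_option autoImplicit false

namespace Pool.Agent.Results.MP_28250c_lc.StrictHierarchy

open ACpFrege ACpHier

/-- The size-depth trade-off and the strict depth hierarchy for bounded-depth Frege systems with connectives `MOD_p`.

(A) There are unsatisfiable CNFs `F n` (at most `n` variables, size at most `(n + 2)^30`, at most eight literals in a clause) such
that for every prime `p` there is one finite set `S₀` of sound rules with: for all `n` and `h ≥ 1` the CNF `F n` has a refutation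
in `S₀` of depth `2 h + 8`, without `MOD` connectives, of size at most `2^(504 h n^(1/h))`; for all `n ≥ 2` it has one of depth
`12 log₂ n` and size at most `n^2016`; and for every finite set `S` of sound rules (with or without `MOD_p`), all large `n` and all `d` with
`(ln n)^(d + 1) ≤ n^(1/5000)` every refutation of `F n` in `S` of depth `d` has size at least `2^(n^(1/(5000 (d + 1))))`.

(B) For all `d` and `K ≥ 1` there are unsatisfiable CNFs `G n` (same bounds) such that for every prime `p`: for all large `n` the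
CNF `G n` has a refutation of depth `10012 K (d + 1)` and size at most `n` without `MOD` connectives, while for every finite set `S`
of sound rules all refutations of `G n` in `S` of depth `d` have size at least `2^((log₂ n)^K)` for large `n`. -/
theorem result :
    (∃ F : ℕ → CNF,
      (∀ n, (F n).Unsat ∧ (F n).size ≤ (n + 2) ^ 30 ∧ ∀ C ∈ F n, C.length ≤ 8 ∧ ∀ l ∈ C, l.1 < n) ∧
      ∀ p : ℕ, p.Prime → ∃ S₀ : List (Rule p), (∀ R ∈ S₀, R.Sound) ∧
        (∀ n h : ℕ, 1 ≤ h → ∃ π : List (Fm p), Refutes S₀ (2 * h + 8) (F n) π ∧ (∀ A ∈ π, Free A) ∧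
          (psize π : ℝ) ≤ (2 : ℝ) ^ (504 * (h : ℝ) * (n : ℝ) ^ ((1 : ℝ) / h))) ∧
        (∀ n : ℕ, 2 ≤ n → ∃ π : List (Fm p), Refutes S₀ (12 * Nat.log 2 n) (F n) π ∧ (∀ A ∈ π, Free A) ∧
          psize π ≤ n ^ 2016) ∧
        ∀ S : List (Rule p), (∀ R ∈ S, R.Sound) → ∃ n₀ : ℕ, ∀ n ≥ n₀, ∀ d : ℕ,
          Real.log n ^ (d + 1) ≤ (n : ℝ) ^ ((1 : ℝ) / 5000) → ∀ π' : List (Fm p), Refutes S d (F n) π' →
            (2 : ℝ) ^ ((n : ℝ) ^ ((1 : ℝ) / (5000 * (d + 1)))) ≤ psize π') ∧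
    (∀ d K : ℕ, 1 ≤ K → ∃ G : ℕ → CNF,
      (∀ n, (G n).Unsat ∧ (G n).size ≤ (n + 2) ^ 30 ∧ ∀ C ∈ G n, C.length ≤ 8 ∧ ∀ l ∈ C, l.1 < n) ∧
      ∀ p : ℕ, p.Prime → ∃ S₀ : List (Rule p), (∀ R ∈ S₀, R.Sound) ∧
        (∃ n₀ : ℕ, ∀ n ≥ n₀, ∃ π : List (Fm p), Refutes S₀ (10012 * K * (d + 1)) (G n) π ∧ (∀ A ∈ π, Free A) ∧
          psize π ≤ n) ∧
        ∀ S : List (Rule p), (∀ R ∈ S, R.Sound) → ∃ n₀ : ℕ, ∀ n ≥ n₀, ∀ π' : List (Fm p), Refutes S d (G n) π' →
          (2 : ℝ) ^ (Real.logb 2 n ^ K) ≤ psize π') :=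
  ACpHier.final

end Pool.Agent.Results.MP_28250c_lc.StrictHierarchy
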