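import Pool.Agent.H94.Fin.TseC
import Pool.Agent.H94.TM.Size

/-!
Exponential lower bounds for the Tseitin formulas of all graphs with a large grid minor and of all expanders in bounded-depth Frege
systems with MOD_p connectives (AC0[p]-Frege), and matching upper bounds.  The definitions of the proof systems are in
Pool/Agent/H65/AF/Defs.lean and Pool/Agent/H75/PQ/Defs.lean, those of the formulas `tsg` and `tsgb` and of grid minors in
Pool/Agent/H94/TM/Defs.lean (with Pool/Agent/H94/TG/Defs.lean), of expanders in Pool/Agent/H94/TE/Defs.lean.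
-/

set_option autoImplicit false

namespace Pool.Agent.Results.MP_28250c_lc.TseitinFormulas

open ACpFrege PPh

/-- (1) Let `p` be a prime, `c = log 2 / (400 log (2p + 4))`. For all large `n`, all depths `d` with `(log n)^(d+1) ≤ n^c` (so for every
fixed `d` and all large `n`), every finite set `S` of sound schematic rules with at most `n^c` variables each, every connected graph `G`
with the `n × n` grid as a minor and with degrees at most `n^c`, every modulus `q ≥ 2` and all charges whose sum `t ≠ 0` in `Z/q` is a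
multiple of `p^(v_p(q))`: every refutation of the Tseitin formula `tsg G q σ` in the Frege system `S` with MOD_p connectives all of whose
lines have depth at most `d` has size at least `2^(n^(c/(d+1)))`. The same for the classical Tseitin formulas `tsgb G σ` if `p ≠ 2`.
(2) The same for the graphs with `v ≥ v₀(p, k)` vertices and vertex expansion at least `1/k`, with `v` in place of `n` and `c/6` in place
of `c`.
(3) For every prime `p`, every modulus `q ≥ 2` and every `Δ` there is a finite set of sound schematic rules in which every unsatisfiable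
CNF has a refutation of depth 2 and in which all Tseitin formulas `tsg G q σ` of graphs with degrees at most `Δ` and with a total charge
which is no multiple of `p^(v_p(q))` have refutations of depth 2 and of polynomial size. For `p = 2` also the formulas `tsgb G σ`.
(4) The formulas are unsatisfiable if the sum of the charges is not 0, and of linear size for graphs of bounded degree. -/
theorem result :
    (∀ p : ℕ, p.Prime → ∃ n₀ : ℕ, ∀ n ≥ n₀, ∀ d : ℕ,
      Real.log n ^ (d + 1) ≤ (n : ℝ) ^ (Real.log 2 / (400 * Real.log (2 * p + 4))) →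
      ∀ S : List (Rule p), (∀ R ∈ S, R.Sound) →
        (∀ R ∈ S, (R.vars : ℝ) ≤ (n : ℝ) ^ (Real.log 2 / (400 * Real.log (2 * p + 4)))) →
      ∀ (v : ℕ) (G : SimpleGraph (Fin v)) [DecidableRel G.Adj], G.Connected → GridMinor n G →
        (∀ w, (G.degree w : ℝ) ≤ (n : ℝ) ^ (Real.log 2 / (400 * Real.log (2 * p + 4)))) →
        (∀ q : ℕ, 2 ≤ q → ∀ σ : Fin v → ZMod q, ((p ^ q.factorization p : ℕ) : ZMod q) ∣ ∑ w, σ w → ∑ w, σ w ≠ 0 →
          ∀ π : List (Fm p), Refutes S d (tsg G q σ) π →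
            (2 : ℝ) ^ ((n : ℝ) ^ (Real.log 2 / (400 * Real.log (2 * p + 4)) / (d + 1))) ≤ psize π) ∧
        (p ≠ 2 → ∀ σ : Fin v → ZMod 2, ∑ w, σ w ≠ 0 →
          ∀ π : List (Fm p), Refutes S d (tsgb G σ) π →
            (2 : ℝ) ^ ((n : ℝ) ^ (Real.log 2 / (400 * Real.log (2 * p + 4)) / (d + 1))) ≤ psize π)) ∧
    (∀ p : ℕ, p.Prime → ∀ k : ℕ, ∃ v₀ : ℕ, ∀ v ≥ v₀, ∀ d : ℕ,
      Real.log v ^ (d + 1) ≤ (v : ℝ) ^ (Real.log 2 / (2400 * Real.log (2 * p + 4))) →
      ∀ S : List (Rule p), (∀ R ∈ S, R.Sound) →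
        (∀ R ∈ S, (R.vars : ℝ) ≤ (v : ℝ) ^ (Real.log 2 / (2400 * Real.log (2 * p + 4)))) →
      ∀ (G : SimpleGraph (Fin v)) [DecidableRel G.Adj], Exp k G →
        (∀ w, (G.degree w : ℝ) ≤ (v : ℝ) ^ (Real.log 2 / (2400 * Real.log (2 * p + 4)))) →
        (∀ q : ℕ, 2 ≤ q → ∀ σ : Fin v → ZMod q, ((p ^ q.factorization p : ℕ) : ZMod q) ∣ ∑ w, σ w → ∑ w, σ w ≠ 0 →
          ∀ π : List (Fm p), Refutes S d (tsg G q σ) π →
            (2 : ℝ) ^ ((v : ℝ) ^ (Real.log 2 / (2400 * Real.log (2 * p + 4)) / (d + 1))) ≤ psize π) ∧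
        (p ≠ 2 → ∀ σ : Fin v → ZMod 2, ∑ w, σ w ≠ 0 →
          ∀ π : List (Fm p), Refutes S d (tsgb G σ) π →
            (2 : ℝ) ^ ((v : ℝ) ^ (Real.log 2 / (2400 * Real.log (2 * p + 4)) / (d + 1))) ≤ psize π)) ∧
    (∀ p : ℕ, p.Prime → ∀ q : ℕ, 2 ≤ q → ∀ Δ : ℕ, ∃ (S : List (Rule p)) (c : ℕ), (∀ R ∈ S, R.Sound) ∧
      (∀ F : CNF, F.Unsat → ∃ π : List (Fm p), Refutes S 2 F π) ∧
      ∀ (v : ℕ) (G : SimpleGraph (Fin v)) [DecidableRel G.Adj], (∀ w, G.degree w ≤ Δ) →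
        (∀ σ : Fin v → ZMod q, ¬ ((p ^ q.factorization p : ℕ) : ZMod q) ∣ ∑ w, σ w →
          ∃ π : List (Fm p), Refutes S 2 (tsg G q σ) π ∧ psize π ≤ (v + 2) ^ c) ∧
        (p = 2 → ∀ σ : Fin v → ZMod 2, ∑ w, σ w ≠ 0 →
          ∃ π : List (Fm p), Refutes S 2 (tsgb G σ) π ∧ psize π ≤ (v + 2) ^ c)) ∧
    ∀ (v : ℕ) (G : SimpleGraph (Fin v)) [DecidableRel G.Adj] (Δ : ℕ), (∀ w, G.degree w ≤ Δ) →
      (∀ q : ℕ, 2 ≤ q → ∀ σ : Fin v → ZMod q, (tsg G q σ).size ≤ (Δ + 1) * (q ^ Δ + 5 * q ^ 2) * v ∧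
        (∑ w, σ w ≠ 0 → (tsg G q σ).Unsat)) ∧
      ∀ σ : Fin v → ZMod 2, (tsgb G σ).size ≤ (Δ + 1) * 2 ^ Δ * v ∧ (∑ w, σ w ≠ 0 → (tsgb G σ).Unsat) :=
  ⟨mainTMu, mainTEu, fun _ hp _ hq Δ => tseC hp hq Δ, fun v G _ Δ hΔ =>
    ⟨fun q hq σ => ⟨(tsg_size G (by omega) hΔ σ).1, tsg_unsat G hq⟩, fun σ => ⟨(tsgb_size G hΔ σ).1, tsgb_unsat G⟩⟩⟩

end Pool.Agent.Results.MP_28250c_lc.TseitinFormulas
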